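import Pool.Agent.H154R3.Ext
import Pool.Agent.H154R3.NotIso

set_option autoImplicit false
set_option linter.unusedSectionVars false
set_option linter.unusedVariables false

namespace Pool.Agent.Results.MP_bc0af3_ag.PlinthPrincipalNotPoly

open Polynomial

/-- A `G_a`-action on a `k`-algebra `B`: a `k`-algebra homomorphism `ε : B → B[T]`,
`ε b = ∑ b_i T ^ i`, such that (A1) `b_0 = b` and (A2)
`∑ ε (b_i) U ^ i = ∑ b_i (T + U) ^ i` in `B[T][U]`. In `B[T][U]`, which is
`Polynomial (Polynomial B)`, the variable `T` is `C X` and the variable `U` is `X`. -/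
structure GaAction (k B : Type*) [CommRing k] [CommRing B] [Algebra k B] where
  /-- the algebra homomorphism `ε : B → B[T]` -/
  hom : B →ₐ[k] B[X]
  /-- (A1) -/
  coeff_zero : ∀ b : B, (hom b).coeff 0 = b
  /-- (A2) -/
  add_law : ∀ b : B,
    ((hom b).sum fun i c => C (hom c) * X ^ i : B[X][X]) =
      (hom b).sum fun i c => C (C c) * (C X + X) ^ i

/-- `φ` is exponential: `φ = ε_a`, that is `φ b = (ε b)` evaluated at `T = a`, for some
`G_a`-action `ε` and some element `a` of its invariant ring. -/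
def IsExponential {k B : Type*} [CommRing k] [CommRing B] [Algebra k B] (φ : B ≃ₐ[k] B) : Prop :=
  ∃ (ε : GaAction k B) (a : B), ε.hom a = C a ∧ ∀ b : B, φ b = (ε.hom b).eval a

/-- the invariant ring `B ^ φ` -/
def invariantRing {k B : Type*} [CommRing k] [CommRing B] [Algebra k B] (φ : B ≃ₐ[k] B) :
    Subalgebra k B where
  carrier := {b | φ b = b}
  mul_mem' {a b} ha hb := by
    simp only [Set.mem_ofPred_eq] at ha hb ⊢
    rw [map_mul, ha, hb]
  add_mem' {a b} ha hb := by
    simp only [Set.mem_ofPred_eq] at ha hb ⊢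
    rw [map_add, ha, hb]
  algebraMap_mem' r := φ.commutes r

/-- the plinth ideal `(φ - id)(B) ∩ B ^ φ`, an ideal of `B ^ φ` -/
def plinthIdeal {k B : Type*} [CommRing k] [CommRing B] [Algebra k B] (φ : B ≃ₐ[k] B) :
    Ideal (invariantRing φ) where
  carrier := {c | ∃ b : B, φ b - b = (c : B)}
  add_mem' {a b} ha hb := by
    obtain ⟨a', ha⟩ := ha
    obtain ⟨b', hb⟩ := hb
    refine ⟨a' + b', ?_⟩
    rw [map_add, Subalgebra.coe_add, ← ha, ← hb]
    ring
  zero_mem' := ⟨0, by simp⟩
  smul_mem' c x hx := by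
    obtain ⟨x', hx⟩ := hx
    refine ⟨(c : B) * x', ?_⟩
    have hc : φ (c : B) = c := c.2
    rw [map_mul, hc, smul_eq_mul, Subalgebra.coe_mul, ← hx]
    ring

section action

open Pool.Agent.H154R3.Ident

variable (p : ℕ) [hp : Fact p.Prime] (k : Type*) [Field k] [CharP k p]

/-- the polynomial ring `k[x_1, x_2, x_3]` -/
abbrev B (k : Type*) [Field k] : Type _ := MvPolynomial (Fin 3) k

/-- variables -/
noncomputable abbrev x : B k := MvPolynomial.X 0
/-- variables -/
noncomputable abbrev y : B k := MvPolynomial.X 1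
/-- variables -/
noncomputable abbrev z : B k := MvPolynomial.X 2

lemma z_ne_zero : z k ≠ 0 := MvPolynomial.X_ne_zero 2

/-- homomorphisms from `k[x, y, z]` to a domain agreeing on constants, `z`, `s`, `F` are equal -/
lemma hom_ext' {S : Type*} [CommRing S] [IsDomain S] (f g : B k →+* S)
    (hC : ∀ a : k, f (MvPolynomial.C a) = g (MvPolynomial.C a))
    (hz : f (z k) = g (z k)) (hz0 : f (z k) ≠ 0)
    (hs : f (sR p (x k) (y k) (z k)) = g (sR p (x k) (y k) (z k)))
    (hF : f (FR p (x k) (y k) (z k)) = g (FR p (x k) (y k) (z k))) : f = g := by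
  obtain ⟨hx, hy⟩ := agree p f g (x k) (y k) (z k) hz hz0 hs hF
  apply MvPolynomial.ringHom_ext hC
  intro i
  fin_cases i
  · exact hx
  · exact hy
  · exact hz

/-- the `G_a`-action `s ↦ s + z T`, `F ↦ F`, `z ↦ z` -/
noncomputable def act : B k →ₐ[k] (B k)[X] :=
  MvPolynomial.aeval ![xT p (C (x k)) (C (y k)) (C (z k)) X,
    yT p (C (x k)) (C (y k)) (C (z k)) X, C (z k)]

lemma act_x : act p k (x k) = xT p (C (x k)) (C (y k)) (C (z k)) X := by simp [act]
lemma act_y : act p k (y k) = yT p (C (x k)) (C (y k)) (C (z k)) X := by simp [act]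
lemma act_z : act p k (z k) = C (z k) := by simp [act]

lemma charP_BX : CharP (B k)[X] p := inferInstance

lemma act_s : act p k (sR p (x k) (y k) (z k)) =
    C (sR p (x k) (y k) (z k)) + C (z k) * X := by
  have : CharP (B k)[X] p := charP_BX p k
  have h := map_sR p (act p k : B k →+* (B k)[X]) (x k) (y k) (z k)
  have h2 := map_sR p (C : B k →+* (B k)[X]) (x k) (y k) (z k)
  simp only [RingHom.coe_coe] at h
  rw [h, act_x, act_y, act_z, sR_T, ← h2]

lemma act_F : act p k (FR p (x k) (y k) (z k)) = C (FR p (x k) (y k) (z k)) := by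
  have : CharP (B k)[X] p := charP_BX p k
  have h := map_FR p (act p k : B k →+* (B k)[X]) (x k) (y k) (z k)
  have h2 := map_FR p (C : B k →+* (B k)[X]) (x k) (y k) (z k)
  simp only [RingHom.coe_coe] at h
  rw [h, act_x, act_y, act_z, FR_T, ← h2]

lemma act_C (a : k) : act p k (MvPolynomial.C a) = C (MvPolynomial.C a) := by
  rw [act, MvPolynomial.aeval_C]; rfl

/-- the `G_a`-action -/
noncomputable def ga : GaAction k (B k) where
  hom := act p k
  coeff_zero b := by
    have h : (constantCoeff : (B k)[X] →+* B k).comp (act p k : B k →+* (B k)[X]) =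
        RingHom.id (B k) := by
      apply hom_ext' p k
      · intro a
        simp [act_C]
      · simp [act_z]
      · simp [act_z]
      · simp [act_s]
      · simp [act_F]
    exact congrArg (fun f => f b) h
  add_law b := by
    have h : (mapRingHom (act p k : B k →+* (B k)[X])).comp (act p k : B k →+* (B k)[X]) =
        (eval₂RingHom ((C : (B k)[X] →+* (B k)[X][X]).comp (C : B k →+* (B k)[X]))
          (C X + X : (B k)[X][X])).comp (act p k : B k →+* (B k)[X]) := by
      refine hom_ext' (S := (B k)[X][X]) p k _ _ ?_ ?_ ?_ ?_ ?_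
      · intro a
        simp [act_C]
      · simp [act_z]
      · simp [act_z]
      · simp [act_s, act_z]; ring
      · simp [act_F]
    have h1 := congrArg (fun f => f b) h
    simp only [RingHom.comp_apply, RingHom.coe_coe, coe_mapRingHom, coe_eval₂RingHom] at h1
    have h2 : (act p k b).map (act p k : B k →+* (B k)[X]) =
        (act p k b).sum fun i c => C (act p k c) * X ^ i := by
      rw [Polynomial.map, eval₂_eq_sum]
      rfl
    have h3 : eval₂ ((C : (B k)[X] →+* (B k)[X][X]).comp (C : B k →+* (B k)[X]))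
        (C X + X : (B k)[X][X]) (act p k b) =
        (act p k b).sum fun i c => C (C c) * (C X + X) ^ i := by
      rw [eval₂_eq_sum]
      rfl
    rw [← h2, ← h3, h1]

/-- evaluation of the action at `T = w` -/
noncomputable def ev (w : B k) : B k →ₐ[k] B k :=
  MvPolynomial.aeval ![xT p (x k) (y k) (z k) w, yT p (x k) (y k) (z k) w, z k]

lemma ev_x (w : B k) : ev p k w (x k) = xT p (x k) (y k) (z k) w := by simp [ev]
lemma ev_y (w : B k) : ev p k w (y k) = yT p (x k) (y k) (z k) w := by simp [ev]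
lemma ev_z (w : B k) : ev p k w (z k) = z k := by simp [ev]

lemma ev_s (w : B k) : ev p k w (sR p (x k) (y k) (z k)) =
    sR p (x k) (y k) (z k) + z k * w := by
  have h := map_sR p (ev p k w : B k →+* B k) (x k) (y k) (z k)
  simp only [RingHom.coe_coe] at h
  rw [h, ev_x, ev_y, ev_z, sR_T]

lemma ev_F (w : B k) : ev p k w (FR p (x k) (y k) (z k)) = FR p (x k) (y k) (z k) := by
  have h := map_FR p (ev p k w : B k →+* B k) (x k) (y k) (z k)
  simp only [RingHom.coe_coe] at h
  rw [h, ev_x, ev_y, ev_z, FR_T]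

lemma ev_C (w : B k) (a : k) : ev p k w (MvPolynomial.C a) = MvPolynomial.C a := by
  rw [ev, MvPolynomial.aeval_C]; rfl

lemma ev_eq (w : B k) (b : B k) : ev p k w b = (act p k b).eval w := by
  have h : (ev p k w : B k →+* B k) = (evalRingHom w).comp (act p k : B k →+* (B k)[X]) := by
    apply hom_ext' p k
    · intro a
      simp [act_C, ev_C]
    · simp [act_z, ev_z]
    · simp [ev_z]
    · simp [act_s, ev_s]
    · simp [act_F, ev_F]
  exact congrArg (fun f => f b) h

lemma ev_comp (w w' : B k) (hw : ev p k w w' = w') (h0 : w + w' = 0) :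
    (ev p k w).comp (ev p k w') = AlgHom.id k (B k) := by
  have h : ((ev p k w : B k →+* B k)).comp (ev p k w' : B k →+* B k) = RingHom.id (B k) := by
    apply hom_ext' p k
    · intro a
      simp [ev_C]
    · simp [ev_z]
    · simp [ev_z]
    · simp only [RingHom.comp_apply, RingHom.coe_coe, ev_s, map_add, map_mul, hw, ev_z,
        RingHom.id_apply]
      linear_combination (z k) * h0
    · simp [ev_F]
  ext b
  exact congrArg (fun f => f (MvPolynomial.X b)) h ▸ rfl

/-- the automorphism `φ = ε_w` with `w = z ^ 2` -/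
noncomputable def phi : B k ≃ₐ[k] B k :=
  AlgEquiv.ofAlgHom (ev p k (z k ^ 2)) (ev p k (-(z k ^ 2)))
    (ev_comp p k _ _ (by rw [map_neg, map_pow, ev_z]) (by ring))
    (ev_comp p k _ _ (by rw [map_pow, ev_z]) (by ring))

lemma phi_apply (b : B k) : phi p k b = ev p k (z k ^ 2) b := rfl

lemma phi_exponential : IsExponential (phi p k) := by
  refine ⟨ga p k, z k ^ 2, ?_, ?_⟩
  · show act p k (z k ^ 2) = C (z k ^ 2)
    rw [map_pow, act_z, C_pow]
  · intro b
    rw [phi_apply, ev_eq]
    rfl

lemma phi_z : phi p k (z k) = z k := ev_z p k _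
lemma phi_s : phi p k (sR p (x k) (y k) (z k)) = sR p (x k) (y k) (z k) + z k ^ 3 := by
  rw [phi_apply, ev_s]; ring
lemma phi_F : phi p k (FR p (x k) (y k) (z k)) = FR p (x k) (y k) (z k) := ev_F p k _

lemma phi_N : phi p k (NR p (x k) (y k) (z k)) = NR p (x k) (y k) (z k) := by
  have h : (z k ^ 3) ^ p = kap p (z k) * z k ^ 3 := by
    rw [kap, ← mul_pow, mul_comm (z k ^ (p - 1)), z_r, ← pow_mul, ← pow_mul, mul_comm]
  have h2 : phi p k (kap p (z k)) = kap p (z k) := by
    rw [kap, map_pow, map_pow, phi_z]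
  rw [NR, map_sub, map_pow, map_mul, phi_s, h2, add_pow_char, h]
  ring

lemma phi_M : phi p k (MR p (x k) (y k) (z k)) = MR p (x k) (y k) (z k) := by
  rw [MR, map_sub, map_pow, map_pow, phi_F, phi_N]

lemma phi_sig : phi p k (sigR p (x k) (y k) (z k)) = sigR p (x k) (y k) (z k) + z k ^ 2 := by
  have h := z_sig p (x k) (y k) (z k)
  have h1 := congrArg (phi p k) h
  rw [map_mul, map_sub, phi_z, phi_s, phi_M] at h1
  apply mul_left_cancel₀ (z_ne_zero k)
  rw [h1, mul_add, h]
  ring

lemma phi_L : phi p k (LR p (x k) (y k) (z k)) = LR p (x k) (y k) (z k) := by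
  have h := z_L p (x k) (y k) (z k)
  have h1 := congrArg (phi p k) h
  rw [map_mul, map_sub, map_pow, map_pow, phi_z, phi_M, phi_N, ← h] at h1
  exact mul_left_cancel₀ (pow_ne_zero _ (z_ne_zero k)) h1

lemma dvd_sub (b : B k) : z k ^ 2 ∣ phi p k b - b := by
  induction b using MvPolynomial.induction_on with
  | C a => rw [phi_apply, ev_C, sub_self]; exact dvd_zero _
  | add b c hb hc =>
    rw [map_add]
    have := dvd_add hb hc
    convert this using 1; ring
  | mul_X b i hb =>
    have hi : z k ^ 2 ∣ phi p k (MvPolynomial.X i) - MvPolynomial.X i := by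
      have hpp : p ≠ 0 := hp.out.ne_zero
      have d1 : z k ^ 2 ∣ (z k ^ 2) ^ p := dvd_pow_self _ hpp
      have d2 : z k ^ 2 ∣ (z k ^ 2) ^ (p ^ 2) := dvd_pow_self _ (pow_ne_zero _ hpp)
      have d3 : z k ^ 2 ∣ (z k ^ 2) ^ (p ^ 2 + p) := dvd_pow_self _ (by omega)
      have d4 : z k ^ 2 ∣ (z k ^ 2) ^ (p + 1) := dvd_pow_self _ (by omega)
      fin_cases i
      · show z k ^ 2 ∣ phi p k (x k) - x k
        rw [phi_apply, ev_x, xT]
        have e : ∀ a b c d : B k, x k + a + b + c + d - x k = a + b + c + d := by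
          intros; ring
        rw [e]
        refine dvd_add (dvd_add (dvd_add (dvd_refl _) ?_) ?_) ?_
        · exact (d1.mul_left _).mul_right _
        · exact (d2.mul_left _).mul_right _
        · exact d3.mul_left _
      · show z k ^ 2 ∣ phi p k (y k) - y k
        rw [phi_apply, ev_y, yT]
        have e : ∀ a : B k, y k - a - y k = - a := by
          intros; ring
        rw [e, dvd_neg]
        refine dvd_add (dvd_add ?_ ?_) ?_
        · exact (dvd_mul_left _ _).mul_right _
        · exact (d1.mul_left _).mul_right _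
        · exact d4.mul_left _
      · show z k ^ 2 ∣ phi p k (z k) - z k
        rw [phi_z, sub_self]; exact dvd_zero _
    rw [map_mul]
    have h3 : phi p k b * phi p k (MvPolynomial.X i) - b * MvPolynomial.X i =
        (phi p k b - b) * phi p k (MvPolynomial.X i) +
          b * (phi p k (MvPolynomial.X i) - MvPolynomial.X i) := by ring
    rw [h3]
    exact dvd_add (hb.mul_right _) (hi.mul_left _)

/-- the plinth ideal is principal -/
lemma plinth_principal : (plinthIdeal (phi p k)).IsPrincipal := by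
  have hz2 : z k ^ 2 ∈ invariantRing (phi p k) := by
    show phi p k (z k ^ 2) = z k ^ 2
    rw [map_pow, phi_z]
  refine ⟨⟨⟨z k ^ 2, hz2⟩, ?_⟩⟩
  apply le_antisymm
  · rintro ⟨c, hc⟩ ⟨b, hb⟩
    simp only at hb
    obtain ⟨d, hd⟩ := dvd_sub p k b
    have hc' : c = z k ^ 2 * d := by rw [← hd, hb]
    have hdinv : phi p k d = d := by
      have h1 : phi p k c = c := hc
      rw [hc', map_mul, map_pow, phi_z] at h1
      exact mul_left_cancel₀ (pow_ne_zero _ (z_ne_zero k)) h1
    rw [Submodule.mem_span_singleton]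
    refine ⟨⟨d, hdinv⟩, ?_⟩
    apply Subtype.ext
    rw [smul_eq_mul, Subalgebra.coe_mul]
    simp only
    rw [hc']; ring
  · rw [Submodule.span_singleton_le_iff_mem]
    refine ⟨sigR p (x k) (y k) (z k), ?_⟩
    rw [phi_sig]; ring

/-! ### The invariant ring -/

/-- the subalgebra generated by `z, F, N, L` -/
noncomputable def A' : Subalgebra k (B k) :=
  Algebra.adjoin k {z k, FR p (x k) (y k) (z k), NR p (x k) (y k) (z k), LR p (x k) (y k) (z k)}

lemma z_mem : z k ∈ A' p k := Algebra.subset_adjoin (by simp)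
lemma F_mem : FR p (x k) (y k) (z k) ∈ A' p k := Algebra.subset_adjoin (by simp)
lemma N_mem : NR p (x k) (y k) (z k) ∈ A' p k := Algebra.subset_adjoin (by simp)
lemma L_mem : LR p (x k) (y k) (z k) ∈ A' p k := Algebra.subset_adjoin (by simp)
lemma M_mem : MR p (x k) (y k) (z k) ∈ A' p k :=
  Subalgebra.sub_mem _ (Subalgebra.pow_mem _ (F_mem p k) _) (Subalgebra.pow_mem _ (N_mem p k) _)

lemma A'_le : A' p k ≤ invariantRing (phi p k) := by
  rw [A']
  apply Algebra.adjoin_le
  intro b hb
  simp only [Set.mem_insert_iff, Set.mem_singleton_iff] at hb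
  rcases hb with rfl | rfl | rfl | rfl
  · exact phi_z p k
  · exact phi_F p k
  · exact phi_N p k
  · exact phi_L p k

/-- `σ` -/
noncomputable abbrev sg : B k := sigR p (x k) (y k) (z k)

lemma kap_mem : kap p (z k) ∈ A' p k :=
  Subalgebra.pow_mem _ (Subalgebra.pow_mem _ (z_mem p k) _) _
lemma kap'_mem : kap' p (z k) ∈ A' p k :=
  Subalgebra.mul_mem _ (Subalgebra.pow_mem _ (z_mem p k) _)
    (Subalgebra.pow_mem _ (Subalgebra.pow_mem _ (z_mem p k) _) _)

lemma asub (Q Q' : (A' p k)[X]) :
    aeval (sg p k) (Q - Q') = aeval (sg p k) Q - aeval (sg p k) Q' := by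
  have h : Q = (Q - Q') + Q' := by ring
  have h2 : aeval (sg p k) Q = aeval (sg p k) ((Q - Q') + Q') := by rw [← h]
  rw [h2, map_add]; ring

/-- every element is a polynomial in `σ` over `A'` -/
lemma exists_poly (b : B k) : ∃ Q : (A' p k)[X], aeval (sg p k) Q = b := by
  have hA : ∀ a ∈ A' p k, ∃ Q : (A' p k)[X], aeval (sg p k) Q = a := by
    intro a ha
    exact ⟨C ⟨a, ha⟩, by rw [aeval_C]; rfl⟩
  have hmul : ∀ a b : B k, (∃ Q : (A' p k)[X], aeval (sg p k) Q = a) →
      (∃ Q : (A' p k)[X], aeval (sg p k) Q = b) →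
      ∃ Q : (A' p k)[X], aeval (sg p k) Q = a * b := by
    rintro a b ⟨Q, rfl⟩ ⟨Q', rfl⟩
    exact ⟨Q * Q', by rw [map_mul]⟩
  have hadd : ∀ a b : B k, (∃ Q : (A' p k)[X], aeval (sg p k) Q = a) →
      (∃ Q : (A' p k)[X], aeval (sg p k) Q = b) →
      ∃ Q : (A' p k)[X], aeval (sg p k) Q = a + b := by
    rintro a b ⟨Q, rfl⟩ ⟨Q', rfl⟩
    exact ⟨Q + Q', by rw [map_add]⟩
  have hsub : ∀ a b : B k, (∃ Q : (A' p k)[X], aeval (sg p k) Q = a) →
      (∃ Q : (A' p k)[X], aeval (sg p k) Q = b) →
      ∃ Q : (A' p k)[X], aeval (sg p k) Q = a - b := by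
    rintro a b ⟨Q, rfl⟩ ⟨Q', rfl⟩
    exact ⟨Q - Q', by rw [asub]⟩
  have hpow : ∀ (a : B k) (n : ℕ), (∃ Q : (A' p k)[X], aeval (sg p k) Q = a) →
      ∃ Q : (A' p k)[X], aeval (sg p k) Q = a ^ n := by
    rintro a n ⟨Q, rfl⟩
    exact ⟨Q ^ n, by rw [map_pow]⟩
  have hsig : ∃ Q : (A' p k)[X], aeval (sg p k) Q = sg p k := ⟨X, by rw [aeval_X]⟩
  have hz := hA _ (z_mem p k)
  have hN := hA _ (N_mem p k)
  have hk := hA _ (kap_mem p k)
  have hk' := hA _ (kap'_mem p k)
  have hs : ∃ Q : (A' p k)[X], aeval (sg p k) Q = sR p (x k) (y k) (z k) := by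
    have e : sR p (x k) (y k) (z k) = MR p (x k) (y k) (z k) + z k * sg p k := by
      rw [z_sig]; ring
    rw [e]
    exact hadd _ _ (hA _ (M_mem p k)) (hmul _ _ hz hsig)
  have hy : ∃ Q : (A' p k)[X], aeval (sg p k) Q = y k := by
    have e : y k = FR p (x k) (y k) (z k) - sR p (x k) (y k) (z k) ^ (p + 1) := by
      rw [FR]; ring
    rw [e]
    exact hsub _ _ (hA _ (F_mem p k)) (hpow _ _ hs)
  have hx : ∃ Q : (A' p k)[X], aeval (sg p k) Q = x k := by
    have e : x k = sg p k + tau p (z k) (sR p (x k) (y k) (z k)) (NR p (x k) (y k) (z k)) := by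
      rw [sg, sigR]; ring
    rw [e, tau]
    exact hadd _ _ hsig (hadd _ _ (hadd _ _ (hmul _ _ (hmul _ _ hk' hs) (hpow _ _ hN))
      (hmul _ _ (hmul _ _ (hmul _ _ (hpow _ _ hk) hk') (hpow _ _ hs)) hN))
      (hmul _ _ (hmul _ _ (hpow _ _ hk) hk') (hpow _ _ hs)))
  induction b using MvPolynomial.induction_on with
  | C a => exact hA _ (Subalgebra.algebraMap_mem _ a)
  | add b c hb hc => exact hadd _ _ hb hc
  | mul_X b i hb =>
    apply hmul _ _ hb
    fin_cases i
    · exact hx
    · exact hy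
    · exact hz

/-- the monic equation of `σ` over `A'` -/
noncomputable def mpol : (A' p k)[X] :=
  X ^ p - C (⟨z k, z_mem p k⟩ ^ (2 * (p - 1))) * X -
    C (⟨z k, z_mem p k⟩ ^ (p - 2) * ⟨z k, z_mem p k⟩ ^ (p - 1) * ⟨_, M_mem p k⟩ - ⟨_, L_mem p k⟩)

lemma mpol_eval : aeval (sg p k) (mpol p k) = 0 := by
  have h1 : LR p (x k) (y k) (z k) = - sg p k ^ p +
    z k ^ (p - 2) * z k ^ (p - 1) * sR p (x k) (y k) (z k) := rfl
  have h2 : sR p (x k) (y k) (z k) = MR p (x k) (y k) (z k) + z k * sg p k := by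
    rw [z_sig]; ring
  have h3 : z k ^ (p - 2) * z k ^ (p - 1) * z k = z k ^ (2 * (p - 1)) := by
    have := z_r' p (z k)
    calc z k ^ (p - 2) * z k ^ (p - 1) * z k = (z k * z k ^ (p - 2)) * z k ^ (p - 1) := by ring
      _ = z k ^ (2 * (p - 1)) := by rw [this]; ring
  rw [mpol, asub, asub, aeval_C, map_mul, aeval_C, aeval_X, map_pow, aeval_X]
  change sg p k ^ p - z k ^ (2 * (p - 1)) * sg p k -
    (z k ^ (p - 2) * z k ^ (p - 1) * MR p (x k) (y k) (z k) - LR p (x k) (y k) (z k)) = 0
  rw [h1, h2, ← h3]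
  ring

lemma mpol_monic : (mpol p k).Monic ∧ (mpol p k).natDegree = p := by
  have hp2 := hp.out.two_le
  have e : mpol p k = X ^ p + (- (C (⟨z k, z_mem p k⟩ ^ (2 * (p - 1))) * X) -
    C (⟨z k, z_mem p k⟩ ^ (p - 2) * ⟨z k, z_mem p k⟩ ^ (p - 1) * ⟨_, M_mem p k⟩ -
      ⟨_, L_mem p k⟩)) := by
    rw [mpol]; ring
  have hdeg : (- (C (⟨z k, z_mem p k⟩ ^ (2 * (p - 1))) * X) -
    C (⟨z k, z_mem p k⟩ ^ (p - 2) * ⟨z k, z_mem p k⟩ ^ (p - 1) * ⟨_, M_mem p k⟩ -
      ⟨_, L_mem p k⟩) : (A' p k)[X]).degree < p := by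
    refine lt_of_le_of_lt (degree_sub_le _ _) ?_
    apply max_lt
    · rw [degree_neg]
      refine lt_of_le_of_lt (degree_C_mul_X_le _) ?_
      exact_mod_cast (by omega : 1 < p)
    · refine lt_of_le_of_lt degree_C_le ?_
      exact_mod_cast (by omega : 0 < p)
  have h1 : (mpol p k).Monic := by rw [e]; exact monic_X_pow_add hdeg
  refine ⟨h1, ?_⟩
  rw [e, natDegree_add_eq_left_of_degree_lt, natDegree_X_pow]
  rwa [degree_X_pow]

lemma exists_poly_lt (b : B k) :
    ∃ Q : (A' p k)[X], Q.natDegree < p ∧ aeval (sg p k) Q = b := by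
  obtain ⟨Q, rfl⟩ := exists_poly p k b
  obtain ⟨hm, hd⟩ := mpol_monic p k
  refine ⟨Q %ₘ mpol p k, ?_, ?_⟩
  · have hne : mpol p k ≠ 1 := by
      intro h
      rw [h, natDegree_one] at hd
      exact hp.out.ne_zero hd.symm
    have := natDegree_modByMonic_lt Q hm hne
    rwa [hd] at this
  · have h := modByMonic_add_div Q (mpol p k)
    have h2 := congrArg (aeval (sg p k)) h
    rw [map_add, map_mul, mpol_eval, zero_mul, add_zero] at h2
    exact h2

lemma phi_aeval (Q : (A' p k)[X]) :
    phi p k (aeval (sg p k) Q) = aeval (sg p k) (taylor (⟨z k, z_mem p k⟩ ^ 2) Q) := by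
  have h0 : aeval (sg p k) (X + C (⟨z k, z_mem p k⟩ ^ 2) : (A' p k)[X]) =
      sg p k + z k ^ 2 := by
    rw [map_add, aeval_X, aeval_C]
    rfl
  rw [taylor_apply, aeval_comp, h0]
  induction Q using Polynomial.induction_on' with
  | add a b ha hb => rw [map_add, map_add, ha, hb, map_add]
  | monomial n a =>
    rw [aeval_monomial, aeval_monomial, map_mul, map_pow, phi_sig]
    have h1 : phi p k (algebraMap (A' p k) (B k) a) = algebraMap (A' p k) (B k) a :=
      A'_le p k a.2
    rw [h1]

lemma taylor_coeff_pred {R : Type*} [CommRing R] (r : R) (Q : R[X]) (n : ℕ)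
    (hn : Q.natDegree ≤ n + 1) :
    (taylor r Q).coeff n = Q.coeff n + ((n : R) + 1) * Q.coeff (n + 1) * r := by
  rw [taylor_coeff]
  have h : (hasseDeriv n Q) = C (Q.coeff n) + C (((n : R) + 1) * Q.coeff (n + 1)) * X := by
    ext m
    rw [hasseDeriv_coeff]
    rcases m with _ | _ | m
    · simp
    · have h1 : (1 + n).choose n = n + 1 := by
        rw [add_comm, Nat.choose_succ_self_right]
      simp only [zero_add, h1]
      rw [coeff_add, coeff_C_mul, coeff_X_one, coeff_C_of_ne_zero one_ne_zero, add_comm 1 n]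
      push_cast; ring
    · have h1 : Q.coeff (m + 1 + 1 + n) = 0 := coeff_eq_zero_of_natDegree_lt (by omega)
      rw [h1, mul_zero, coeff_add, coeff_C_mul, coeff_X, coeff_C_of_ne_zero (by omega), if_neg (by omega)]
      ring
  rw [h]
  simp

lemma cast_ne_zero (n : ℕ) (hn : n + 1 < p) : ((n : A' p k) + 1) ≠ 0 := by
  intro h
  have h1 : ((n + 1 : ℕ) : B k) = 0 := by
    have := congrArg (algebraMap (A' p k) (B k)) h
    simpa using this
  rw [CharP.cast_eq_zero_iff (B k) p] at h1
  exact absurd (Nat.le_of_dvd (by omega) h1) (by omega)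

/-- `1, σ, …, σ ^ (p - 1)` are linearly independent over `A'` -/
lemma indep : ∀ (n : ℕ) (R : (A' p k)[X]), n < p → R.natDegree ≤ n →
    aeval (sg p k) R = 0 → R = 0 := by
  intro n
  induction n with
  | zero =>
    intro R _ hd h
    rw [eq_C_of_natDegree_le_zero hd] at h ⊢
    rw [aeval_C] at h
    have h2 : R.coeff 0 = 0 := Subtype.ext h
    rw [h2, C_0]
  | succ n ih =>
    intro R hn hd h
    have h1 : aeval (sg p k) (taylor (⟨z k, z_mem p k⟩ ^ 2) R - R) = 0 := by
      rw [asub, ← phi_aeval, h, map_zero, sub_zero]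
    have h3 : (taylor (⟨z k, z_mem p k⟩ ^ 2) R - R).natDegree ≤ n := by
      rw [natDegree_le_iff_coeff_eq_zero]
      intro m hm
      rw [coeff_sub]
      by_cases hm1 : m = n + 1
      · subst hm1
        have := taylor_coeff_pred (⟨z k, z_mem p k⟩ ^ 2 : A' p k) R (n + 1) (by omega)
        rw [this, coeff_eq_zero_of_natDegree_lt (n := n + 1 + 1) (by omega)]
        ring
      · rw [coeff_eq_zero_of_natDegree_lt (n := m) (p := R) (by omega),
          coeff_eq_zero_of_natDegree_lt (n := m) (by rw [natDegree_taylor]; omega), sub_zero]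
    have h4 := ih _ (by omega) h3 h1
    have h5 := congrArg (fun q : (A' p k)[X] => q.coeff n) h4
    simp only [coeff_sub, coeff_zero] at h5
    rw [taylor_coeff_pred _ _ _ hd] at h5
    have h6 : ((n : A' p k) + 1) * R.coeff (n + 1) * (⟨z k, z_mem p k⟩ ^ 2) = 0 := by
      linear_combination h5
    have hz : (⟨z k, z_mem p k⟩ ^ 2 : A' p k) ≠ 0 := by
      apply pow_ne_zero
      intro h7
      exact z_ne_zero k (congrArg Subtype.val h7)
    have h7 : R.coeff (n + 1) = 0 := by
      rcases mul_eq_zero.mp h6 with h8 | h8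
      · rcases mul_eq_zero.mp h8 with h9 | h9
        · exact absurd h9 (cast_ne_zero p k n hn)
        · exact h9
      · exact absurd h8 hz
    have h8 : R.natDegree ≤ n := by
      rw [natDegree_le_iff_coeff_eq_zero]
      intro m hm
      by_cases hm1 : m = n + 1
      · rw [hm1, h7]
      · exact coeff_eq_zero_of_natDegree_lt (by omega)
    exact ih R (by omega) h8 h

/-- the invariant ring is `A'` -/
lemma inv_le : ∀ b : B k, phi p k b = b → b ∈ A' p k := by
  intro b hb
  obtain ⟨Q, hQ, rfl⟩ := exists_poly_lt p k b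
  rw [phi_aeval] at hb
  have h1 : aeval (sg p k) (taylor (⟨z k, z_mem p k⟩ ^ 2) Q - Q) = 0 := by
    rw [asub, hb, sub_self]
  have h2 : taylor (⟨z k, z_mem p k⟩ ^ 2) Q - Q = 0 := by
    apply indep p k (p - 1) _ (by have := hp.out.pos; omega) _ h1
    refine le_trans (natDegree_sub_le _ _) ?_
    rw [natDegree_taylor, max_self]
    omega
  have h3 : Q.natDegree = 0 := by
    by_contra hne
    obtain ⟨n, hn⟩ := Nat.exists_eq_succ_of_ne_zero hne
    have h5 := congrArg (fun q : (A' p k)[X] => q.coeff n) h2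
    simp only [coeff_sub, coeff_zero] at h5
    rw [taylor_coeff_pred _ _ _ hn.le] at h5
    have h6 : ((n : A' p k) + 1) * Q.coeff (n + 1) * (⟨z k, z_mem p k⟩ ^ 2) = 0 := by
      linear_combination h5
    have hz : (⟨z k, z_mem p k⟩ ^ 2 : A' p k) ≠ 0 := by
      apply pow_ne_zero
      intro h7
      exact z_ne_zero k (congrArg Subtype.val h7)
    have h7 : Q.coeff (n + 1) = 0 := by
      rcases mul_eq_zero.mp h6 with h8 | h8
      · rcases mul_eq_zero.mp h8 with h9 | h9
        · exact absurd h9 (cast_ne_zero p k n (by omega))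
        · exact h9
      · exact absurd h8 hz
    have h8 : Q.coeff Q.natDegree = 0 := by rw [hn]; exact h7
    have h9 : Q = 0 := leadingCoeff_eq_zero.mp h8
    rw [h9, natDegree_zero] at hne
    exact hne rfl
  rw [eq_C_of_natDegree_eq_zero h3, aeval_C]
  exact (Q.coeff 0).2

/-! ### The invariant ring is not a polynomial ring -/

open Pool.Agent.H154R3.Asanuma (P R0 fF Data)

/-- `k[F][N] → B ^ φ` -/
noncomputable def iP : P k →+* invariantRing (phi p k) :=
  eval₂RingHom (eval₂RingHom (algebraMap k (invariantRing (phi p k)))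
    (⟨FR p (x k) (y k) (z k), phi_F p k⟩ : invariantRing (phi p k)))
    (⟨NR p (x k) (y k) (z k), phi_N p k⟩ : invariantRing (phi p k))

lemma iP_C (a : k) : iP p k (C (C a)) = algebraMap k (invariantRing (phi p k)) a := by
  simp [iP]
lemma iP_F : iP p k (C X) = ⟨FR p (x k) (y k) (z k), phi_F p k⟩ := by
  simp [iP]
lemma iP_N : iP p k X = ⟨NR p (x k) (y k) (z k), phi_N p k⟩ := by
  simp [iP]

lemma iP_fF : (⟨z k, phi_z p k⟩ : invariantRing (phi p k)) ^ p *
    ⟨LR p (x k) (y k) (z k), phi_L p k⟩ = iP p k (fF p k) := by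
  apply Subtype.ext
  have h := rel p (x k) (y k) (z k)
  rw [fF, map_sub, map_sub, map_pow, map_pow, iP_F, iP_N]
  show z k ^ p * LR p (x k) (y k) (z k) = FR p (x k) (y k) (z k) ^ (p ^ 2) -
    NR p (x k) (y k) (z k) - NR p (x k) (y k) (z k) ^ (p ^ 2 + p)
  rw [← h]; ring

lemma exists_beta : ∃ β : invariantRing (phi p k) →+* R0 k,
    (∀ q : P k, β (iP p k q) = HahnSeries.C q) ∧
    β ⟨z k, phi_z p k⟩ = HahnSeries.single 1 1 := by
  have hch : CharP (R0 k) p := Pool.Agent.H154R3.Asanuma.charP_R0 p k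
  have hrel : (HahnSeries.single (1 : ℤ) (1 : P k) : R0 k) ^ p *
      HahnSeries.single (-(p : ℤ)) (fF p k) + HahnSeries.C (X : P k) +
      HahnSeries.C (X : P k) ^ (p ^ 2 + p) = HahnSeries.C (C X : P k) ^ (p ^ 2) := by
    have h1 : (HahnSeries.single (1 : ℤ) (1 : P k) : R0 k) ^ p *
        HahnSeries.single (-(p : ℤ)) (fF p k) = HahnSeries.C (fF p k) := by
      rw [Pool.Agent.H154R3.Asanuma.single_one_pow, HahnSeries.single_mul_single, add_neg_cancel,
        one_mul]
      rfl
    rw [h1, ← map_pow, ← map_pow, ← map_add, ← map_add]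
    congr 1
    rw [fF]; ring
  obtain ⟨S, _, j, Φ, hj, hC, hz, hF, hN, hL⟩ := exists_hom (k := k) (R := R0 k) p
    ((HahnSeries.C : P k →+* R0 k).comp ((C : Polynomial k →+* P k).comp C)) _ _ _ _ hrel
  have hrange : ∀ b ∈ A' p k, ∃ r, j r = Φ b := by
    intro b hb
    induction hb using Algebra.adjoin_induction with
    | mem b hb =>
      simp only [Set.mem_insert_iff, Set.mem_singleton_iff] at hb
      rcases hb with rfl | rfl | rfl | rfl
      · exact ⟨_, hz.symm⟩
      · exact ⟨_, hF.symm⟩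
      · exact ⟨_, hN.symm⟩
      · exact ⟨_, hL.symm⟩
    | algebraMap a => exact ⟨_, (hC a).symm⟩
    | add a b _ _ ha hb =>
      obtain ⟨r, hr⟩ := ha
      obtain ⟨r', hr'⟩ := hb
      exact ⟨r + r', by rw [map_add, map_add, hr, hr']⟩
    | mul a b _ _ ha hb =>
      obtain ⟨r, hr⟩ := ha
      obtain ⟨r', hr'⟩ := hb
      exact ⟨r * r', by rw [map_mul, map_mul, hr, hr']⟩
  have hrange' : ∀ c : invariantRing (phi p k), ∃ r, j r = Φ (c : B k) :=
    fun c => hrange _ (inv_le p k c c.2)
  choose g hg using hrange'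
  let β : invariantRing (phi p k) →+* R0 k :=
    { toFun := g
      map_one' := hj (by rw [hg]; simp)
      map_mul' := fun a b => hj (by rw [map_mul, hg, hg, hg]; simp)
      map_zero' := hj (by rw [hg]; simp)
      map_add' := fun a b => hj (by rw [map_add, hg, hg, hg]; simp) }
  have hβ : ∀ c, j (β c) = Φ (c : B k) := hg
  refine ⟨β, ?_, ?_⟩
  · have h : (j.comp β).comp (iP p k) = j.comp (HahnSeries.C : P k →+* R0 k) := by
      apply Polynomial.ringHom_ext
      · intro a
        have h2 : ((j.comp β).comp (iP p k)).comp (C : Polynomial k →+* P k) =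
            (j.comp (HahnSeries.C : P k →+* R0 k)).comp (C : Polynomial k →+* P k) := by
          apply Polynomial.ringHom_ext
          · intro a
            show j (β (iP p k (C (C a)))) = j (HahnSeries.C (C (C a)))
            rw [hβ, iP_C]
            exact hC a
          · show j (β (iP p k (C X))) = j (HahnSeries.C (C X))
            rw [hβ, iP_F]
            exact hF
        exact congrArg (fun f => f a) h2
      · show j (β (iP p k X)) = j (HahnSeries.C X)
        rw [hβ, iP_N]
        exact hN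
    intro q
    exact hj (congrArg (fun f => f q) h)
  · apply hj
    rw [hβ]
    exact hz

theorem not_polynomial : IsEmpty (invariantRing (phi p k) ≃ₐ[k] MvPolynomial (Fin 3) k) := by
  obtain ⟨β, hβP, hβz⟩ := exists_beta p k
  let _ : Algebra (P k) (invariantRing (phi p k)) := (iP p k).toAlgebra
  have halg : ∀ q : P k, algebraMap (P k) (invariantRing (phi p k)) q = iP p k q := fun _ => rfl
  have _ : IsScalarTower k (P k) (invariantRing (phi p k)) := by
    apply IsScalarTower.of_algebraMap_eq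
    intro a
    rw [halg]
    exact (iP_C p k a).symm
  have hgen : ∀ b ∈ A' p k, ∀ hb : phi p k b = b,
      (⟨b, hb⟩ : invariantRing (phi p k)) ∈ Algebra.adjoin (P k)
        {(⟨z k, phi_z p k⟩ : invariantRing (phi p k)), ⟨LR p (x k) (y k) (z k), phi_L p k⟩} := by
    intro b hbA
    induction hbA using Algebra.adjoin_induction with
    | mem b hb' =>
      intro hb
      simp only [Set.mem_insert_iff, Set.mem_singleton_iff] at hb'
      rcases hb' with rfl | rfl | rfl | rfl
      · exact Algebra.subset_adjoin (by simp)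
      · have : (⟨FR p (x k) (y k) (z k), hb⟩ : invariantRing (phi p k)) =
            algebraMap (P k) _ (C X) := (iP_F p k).symm
        rw [this]
        exact Subalgebra.algebraMap_mem _ _
      · have : (⟨NR p (x k) (y k) (z k), hb⟩ : invariantRing (phi p k)) =
            algebraMap (P k) _ X := (iP_N p k).symm
        rw [this]
        exact Subalgebra.algebraMap_mem _ _
      · exact Algebra.subset_adjoin (by simp)
    | algebraMap a =>
      intro hb
      have : (⟨algebraMap k (B k) a, hb⟩ : invariantRing (phi p k)) =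
          algebraMap (P k) _ (C (C a)) := by
        rw [halg, iP_C]; rfl
      rw [this]
      exact Subalgebra.algebraMap_mem _ _
    | add a b ha' hb' ha hb =>
      intro hab
      have e1 := ha (A'_le p k ha')
      have e2 := hb (A'_le p k hb')
      have e3 : (⟨a + b, hab⟩ : invariantRing (phi p k)) =
          ⟨a, A'_le p k ha'⟩ + ⟨b, A'_le p k hb'⟩ := Subtype.ext rfl
      rw [e3]
      exact Subalgebra.add_mem _ e1 e2
    | mul a b ha' hb' ha hb =>
      intro hab
      have e1 := ha (A'_le p k ha')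
      have e2 := hb (A'_le p k hb')
      have e3 : (⟨a * b, hab⟩ : invariantRing (phi p k)) =
          ⟨a, A'_le p k ha'⟩ * ⟨b, A'_le p k hb'⟩ := Subtype.ext rfl
      rw [e3]
      exact Subalgebra.mul_mem _ e1 e2
  have hgen' : Algebra.adjoin (P k)
        {(⟨z k, phi_z p k⟩ : invariantRing (phi p k)), ⟨LR p (x k) (y k) (z k), phi_L p k⟩} = ⊤ :=
    Algebra.eq_top_iff.mpr (fun c => hgen c.1 (inv_le p k c.1 c.2) c.2)
  exact Data.not_iso (⟨⟨z k, phi_z p k⟩, ⟨LR p (x k) (y k) (z k), phi_L p k⟩, iP_fF p k, hgen',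
    β, hβP, hβz⟩ : Data p k (invariantRing (phi p k)))

end action

/-- For every prime `p` and every field `k` of characteristic `p` there is an exponential
automorphism `φ` of `k[x_1, x_2, x_3]` whose plinth ideal is principal but whose invariant ring is
not isomorphic to a polynomial ring in three variables over `k`. -/
theorem result (p : ℕ) [Fact p.Prime] (k : Type*) [Field k] [CharP k p] :
    ∃ φ : MvPolynomial (Fin 3) k ≃ₐ[k] MvPolynomial (Fin 3) k,
      IsExponential φ ∧ (plinthIdeal φ).IsPrincipal ∧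
        IsEmpty (invariantRing φ ≃ₐ[k] MvPolynomial (Fin 3) k) :=
  ⟨phi p k, phi_exponential p k, plinth_principal p k, not_polynomial p k⟩

end Pool.Agent.Results.MP_bc0af3_ag.PlinthPrincipalNotPoly
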